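import Mathlib.GroupTheory.OrderOfElement
import Mathlib.Algebra.BigOperators.Ring.Finset
import Mathlib.Data.Nat.Totient
import Mathlib.Data.Rat.Defs
import Mathlib.Algebra.Order.BigOperators.Group.Finset
import Mathlib.Tactic

/-!
# MP_305fdd_al, cocompact Fuchsian groups: two elementary facts on finite sums
-/

set_option autoImplicit false

namespace Pool.Agent.Sg

/-- A function on a finite group with the same sum over all the subgroups has the sum zero over the
elements of every order `n ≥ 2`. -/
theorem sum_order {Q : Type} [Group Q] [Fintype Q] [DecidableEq Q] (D : Q → ℚ) (c : ℚ)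
    (h : ∀ (H : Subgroup Q) (T : Finset Q), (∀ x, x ∈ T ↔ x ∈ H) → ∑ x ∈ T, D x = c)
    (n : ℕ) (hn : 2 ≤ n) : ∑ x ∈ Finset.univ.filter (fun x => orderOf x = n), D x = 0 := by
  classical
  have := Fintype.ofFinite (Subgroup Q)
  let G : Subgroup Q → ℚ := fun C => ∑ x ∈ Finset.univ.filter (fun x => Subgroup.zpowers x = C), D x
  have h1 : D 1 = c := by
    have := h ⊥ {1} (by intro x; rw [Finset.mem_singleton, Subgroup.mem_bot])
    rwa [Finset.sum_singleton] at this
  -- the sum over a subgroup
  have h2 : ∀ C : Subgroup Q, ∑ B ∈ Finset.univ.filter (fun B : Subgroup Q => B ≤ C ∧ B ≠ ⊥), G B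
      = 0 := by
    intro C
    have h3 : ∑ B ∈ Finset.univ.filter (fun B : Subgroup Q => B ≤ C ∧ B ≠ ⊥), G B =
        ∑ x ∈ Finset.univ.filter (fun x => x ∈ C ∧ x ≠ 1), D x := by
      rw [← Finset.sum_fiberwise_of_maps_to (s := Finset.univ.filter (fun x => x ∈ C ∧ x ≠ 1))
        (t := Finset.univ.filter (fun B : Subgroup Q => B ≤ C ∧ B ≠ ⊥)) (g := Subgroup.zpowers)]
      · apply Finset.sum_congr rfl
        intro B hB
        rw [Finset.mem_filter] at hB
        apply Finset.sum_congr _ fun _ _ => rfl
        ext x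
        simp only [Finset.mem_filter, Finset.mem_univ, true_and]
        constructor
        · rintro rfl
          refine ⟨⟨hB.2.1 (Subgroup.mem_zpowers x), ?_⟩, rfl⟩
          rintro rfl
          exact hB.2.2 Subgroup.zpowers_one_eq_bot
        · exact fun h => h.2
      · intro x hx
        simp only [Finset.mem_filter, Finset.mem_univ, true_and] at hx ⊢
        exact ⟨by rw [Subgroup.zpowers_le]; exact hx.1, by
          rw [Ne, Subgroup.zpowers_eq_bot]; exact hx.2⟩
    rw [h3]
    have h4 := h C (Finset.univ.filter (fun x => x ∈ C)) (by intro x; simp)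
    have h5 : Finset.univ.filter (fun x => x ∈ C) =
        insert 1 (Finset.univ.filter (fun x => x ∈ C ∧ x ≠ 1)) := by
      ext x
      simp only [Finset.mem_filter, Finset.mem_univ, true_and, Finset.mem_insert]
      by_cases hx : x = 1
      · subst hx; simp [C.one_mem]
      · simp [hx]
    rw [h5, Finset.sum_insert (by simp), h1] at h4
    exact add_eq_left.1 h4
  have h3 : ∀ (N : ℕ) (C : Subgroup Q), Nat.card C = N → C ≠ ⊥ → G C = 0 := by
    intro N
    induction N using Nat.strong_induction_on with
    | _ N ih =>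
      intro C hC hC1
      have h4 := h2 C
      rw [Finset.sum_eq_single C] at h4
      · exact h4
      · intro B hB hne
        rw [Finset.mem_filter] at hB
        refine ih (Nat.card B) ?_ B rfl hB.2.2
        rw [← hC]
        rcases lt_or_eq_of_le (Subgroup.card_le_of_le hB.2.1) with h5 | h5
        · exact h5
        · exact absurd (Subgroup.eq_of_le_of_card_ge hB.2.1 h5.ge) hne
      · intro hC2
        exfalso
        apply hC2
        rw [Finset.mem_filter]
        exact ⟨Finset.mem_univ _, le_rfl, hC1⟩
  rw [← Finset.sum_fiberwise_of_maps_to (s := Finset.univ.filter (fun x : Q => orderOf x = n))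
    (t := Finset.univ.filter (fun B : Subgroup Q => Nat.card B = n)) (g := Subgroup.zpowers)]
  · apply Finset.sum_eq_zero
    intro B hB
    rw [Finset.mem_filter] at hB
    have h4 : B ≠ ⊥ := by
      rintro rfl
      rw [Subgroup.card_bot] at hB
      omega
    rw [← h3 n B hB.2 h4]
    apply Finset.sum_congr _ fun _ _ => rfl
    ext x
    simp only [Finset.mem_filter, Finset.mem_univ, true_and]
    constructor
    · exact fun h => h.2
    · rintro rfl
      exact ⟨by rw [← hB.2, Nat.card_zpowers], rfl⟩
  · intro x hx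
    simp only [Finset.mem_filter, Finset.mem_univ, true_and] at hx ⊢
    rw [Nat.card_zpowers, hx]

/-- the multiplicities of a family of integers `≥ 2` are determined by the sums
`∑_{n ∣ m j} φ(n) / m j` -/
theorem mult_eq {k k' : ℕ} (m : Fin k → ℕ) (m' : Fin k' → ℕ) (hm : ∀ j, 2 ≤ m j)
    (hm' : ∀ j, 2 ≤ m' j)
    (h : ∀ n, 2 ≤ n → ∑ j, (((if n ∣ m j then Nat.totient n else 0 : ℕ) : ℚ) / m j) =
      ∑ j, (((if n ∣ m' j then Nat.totient n else 0 : ℕ) : ℚ) / m' j)) (n : ℕ) :
    Fintype.card {j // m j = n} = Fintype.card {j // m' j = n} := by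
  classical
  obtain ⟨N, hN, hN'⟩ : ∃ N, (∀ j, m j ≤ N) ∧ (∀ j, m' j ≤ N) :=
    ⟨∑ j, m j + ∑ j, m' j, fun j => le_add_right (Finset.single_le_sum
      (f := m) (fun _ _ => Nat.zero_le _) (Finset.mem_univ j)),
      fun j => le_add_left (Finset.single_le_sum
      (f := m') (fun _ _ => Nat.zero_le _) (Finset.mem_univ j))⟩
  -- the fibres
  have key : ∀ {l : ℕ} (q : Fin l → ℕ) (hq : ∀ j, q j ≤ N) (n : ℕ), 2 ≤ n →
      ∑ j, (((if n ∣ q j then Nat.totient n else 0 : ℕ) : ℚ) / q j) =
      ∑ d ∈ (Finset.range (N + 1)).filter (fun d => n ∣ d),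
        (Nat.totient n : ℚ) / d * Fintype.card {j // q j = d} := by
    intro l q hq n hn
    have h1 : ∑ j, (((if n ∣ q j then Nat.totient n else 0 : ℕ) : ℚ) / q j) =
        ∑ j ∈ Finset.univ.filter (fun j => n ∣ q j), (Nat.totient n : ℚ) / q j := by
      rw [Finset.sum_filter]
      apply Finset.sum_congr rfl
      intro j _
      split_ifs <;> simp
    rw [h1, ← Finset.sum_fiberwise_of_maps_to (s := Finset.univ.filter (fun j => n ∣ q j))
      (t := (Finset.range (N + 1)).filter (fun d => n ∣ d)) (g := q)]
    · apply Finset.sum_congr rfl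
      intro d hd
      rw [Finset.mem_filter] at hd
      have h2 : (Finset.univ.filter (fun j => n ∣ q j)).filter (fun j => q j = d) =
          Finset.univ.filter (fun j => q j = d) := by
        ext j
        simp only [Finset.mem_filter, Finset.mem_univ, true_and]
        constructor
        · exact fun h => h.2
        · rintro rfl
          exact ⟨hd.2, rfl⟩
      rw [h2, Finset.sum_congr rfl (g := fun _ => (Nat.totient n : ℚ) / d), Finset.sum_const,
        Fintype.card_subtype, nsmul_eq_mul, mul_comm]
      intro j hj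
      rw [Finset.mem_filter] at hj
      rw [hj.2]
    · intro j hj
      rw [Finset.mem_filter] at hj ⊢
      exact ⟨Finset.mem_range.2 (Nat.lt_succ_of_le (hq j)), hj.2⟩
  -- descending induction
  have main : ∀ t n, 2 ≤ n → N < n + t →
      Fintype.card {j // m j = n} = Fintype.card {j // m' j = n} := by
    intro t
    induction t with
    | zero =>
      intro n _ hn
      have h1 : IsEmpty {j // m j = n} := ⟨fun j => by have := hN j.1; have := j.2; omega⟩
      have h2 : IsEmpty {j // m' j = n} := ⟨fun j => by have := hN' j.1; have := j.2; omega⟩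
      rw [Fintype.card_eq_zero, Fintype.card_eq_zero]
    | succ t ih =>
      intro n hn2 hn
      by_cases hnN : N < n
      · have h1 : IsEmpty {j // m j = n} := ⟨fun j => by have := hN j.1; have := j.2; omega⟩
        have h2 : IsEmpty {j // m' j = n} := ⟨fun j => by have := hN' j.1; have := j.2; omega⟩
        rw [Fintype.card_eq_zero, Fintype.card_eq_zero]
      have h1 := h n hn2
      rw [key m hN n hn2, key m' hN' n hn2] at h1
      have h2 : n ∈ (Finset.range (N + 1)).filter (fun d => n ∣ d) := by
        rw [Finset.mem_filter, Finset.mem_range]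
        exact ⟨by omega, dvd_rfl⟩
      rw [← Finset.add_sum_erase _ _ h2, ← Finset.add_sum_erase _ _ h2] at h1
      have h3 : ∑ d ∈ ((Finset.range (N + 1)).filter (fun d => n ∣ d)).erase n,
          (Nat.totient n : ℚ) / d * Fintype.card {j // m j = d} =
          ∑ d ∈ ((Finset.range (N + 1)).filter (fun d => n ∣ d)).erase n,
          (Nat.totient n : ℚ) / d * Fintype.card {j // m' j = d} := by
        apply Finset.sum_congr rfl
        intro d hd
        rw [Finset.mem_erase, Finset.mem_filter] at hd
        obtain ⟨hd1, _, hd2⟩ := hd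
        by_cases hd0 : d = 0
        · subst hd0; simp
        have h4 : n ≤ d := Nat.le_of_dvd (Nat.pos_of_ne_zero hd0) hd2
        rw [ih d (by omega) (by omega)]
      rw [h3] at h1
      have h4 := add_right_cancel h1
      have h5 : ((Nat.totient n : ℚ) / n) ≠ 0 := by
        apply div_ne_zero
        · exact_mod_cast (Nat.totient_pos.2 (by omega)).ne'
        · exact_mod_cast (by omega : n ≠ 0)
      have h6 := mul_left_cancel₀ h5 h4
      exact_mod_cast h6
  by_cases hn : 2 ≤ n
  · exact main (N + 1) n hn (by omega)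
  · have h1 : IsEmpty {j // m j = n} := ⟨fun j => by have := hm j.1; have := j.2; omega⟩
    have h2 : IsEmpty {j // m' j = n} := ⟨fun j => by have := hm' j.1; have := j.2; omega⟩
    rw [Fintype.card_eq_zero, Fintype.card_eq_zero]

/-- the families agree up to the order -/
theorem exists_equiv {k k' : ℕ} (m : Fin k → ℕ) (m' : Fin k' → ℕ)
    (h : ∀ n, Fintype.card {j // m j = n} = Fintype.card {j // m' j = n}) :
    ∃ e : Fin k ≃ Fin k', ∀ j, m' (e j) = m j := by
  have h1 : ∀ n, Nonempty ({j // m j = n} ≃ {j // m' j = n}) := fun n => Fintype.card_eq.1 (h n)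
  let e1 : Fin k ≃ Σ n, {j // m j = n} := (Equiv.sigmaFiberEquiv m).symm
  let e2 : (Σ n, {j // m j = n}) ≃ (Σ n, {j // m' j = n}) :=
    Equiv.sigmaCongrRight fun n => (h1 n).some
  let e3 : (Σ n, {j // m' j = n}) ≃ Fin k' := Equiv.sigmaFiberEquiv m'
  refine ⟨e1.trans (e2.trans e3), fun j => ?_⟩
  show m' (((h1 (m j)).some ⟨j, rfl⟩).1) = m j
  exact ((h1 (m j)).some ⟨j, rfl⟩).2

end Pool.Agent.Sg
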