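import Pool.Agent.Lib.MP_305fdd_al.Su.Sig.Defs
import Mathlib.GroupTheory.Perm.Sign

/-!
# MP_305fdd_al, cocompact Fuchsian groups: the order of the periods does not matter
-/

set_option autoImplicit false

namespace Pool.Agent.Sg

open scoped commutatorElement

theorem prod_two {G : Type} [Group G] : ∀ {n : ℕ} (i : Fin n) (x y : Fin (n + 1) → G),
    (∀ l, l ≠ i.castSucc → l ≠ i.succ → x l = y l) →
    x i.castSucc * x i.succ = y i.castSucc * y i.succ → (List.ofFn x).prod = (List.ofFn y).prod := by
  intro n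
  induction n with
  | zero => intro i; exact i.elim0
  | succ n ih =>
    intro i x y h1 h2
    induction i using Fin.cases with
    | zero =>
      rw [List.ofFn_succ, List.ofFn_succ (f := y), List.ofFn_succ, List.ofFn_succ
        (f := fun i : Fin (n + 1) => y i.succ)]
      simp only [List.prod_cons, ← mul_assoc]
      congr 1
      congr 2
      funext l
      apply h1
      · intro h
        exact Fin.succ_ne_zero _ h
      · intro h
        exact Fin.succ_ne_zero _ (Fin.succ_injective _ h)
    | succ i =>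
      rw [List.ofFn_succ, List.ofFn_succ (f := y), List.prod_cons, List.prod_cons]
      congr 1
      · apply h1
        · intro h
          rw [← Fin.succ_castSucc] at h
          exact Fin.succ_ne_zero _ h.symm
        · exact (Fin.succ_ne_zero _).symm
      · apply ih i
        · intro l hl1 hl2
          apply h1
          · rw [← Fin.succ_castSucc]
            exact fun h => hl1 (Fin.succ_injective _ h)
          · exact fun h => hl2 (Fin.succ_injective _ h)
        · exact h2

section brd

variable {G : Type} [Group G] {n : ℕ} (i : Fin n) (x : Fin (n + 1) → G)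

/-- a braid move -/
def bm : Fin (n + 1) → G := fun l => if l = i.castSucc then x i.castSucc * x i.succ * (x i.castSucc)⁻¹
  else if l = i.succ then x i.castSucc else x l

/-- the inverse move -/
def bm' : Fin (n + 1) → G := fun l => if l = i.castSucc then x i.succ
  else if l = i.succ then (x i.succ)⁻¹ * x i.castSucc * x i.succ else x l

theorem ne_cs : i.succ ≠ i.castSucc := (Fin.castSucc_lt_succ (i := i)).ne'

theorem bm_cs : bm i x i.castSucc = x i.castSucc * x i.succ * (x i.castSucc)⁻¹ := if_pos rfl

theorem bm_su : bm i x i.succ = x i.castSucc := by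
  unfold bm
  rw [if_neg (ne_cs i), if_pos rfl]

theorem bm_ne (l : Fin (n + 1)) (h1 : l ≠ i.castSucc) (h2 : l ≠ i.succ) : bm i x l = x l := by
  unfold bm
  rw [if_neg h1, if_neg h2]

theorem bm'_cs : bm' i x i.castSucc = x i.succ := if_pos rfl

theorem bm'_su : bm' i x i.succ = (x i.succ)⁻¹ * x i.castSucc * x i.succ := by
  unfold bm'
  rw [if_neg (ne_cs i), if_pos rfl]

theorem bm'_ne (l : Fin (n + 1)) (h1 : l ≠ i.castSucc) (h2 : l ≠ i.succ) : bm' i x l = x l := by
  unfold bm'
  rw [if_neg h1, if_neg h2]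

theorem prod_bm : (List.ofFn (bm i x)).prod = (List.ofFn x).prod := by
  apply prod_two i
  · exact fun l h1 h2 => bm_ne i x l h1 h2
  · rw [bm_cs, bm_su]
    group

theorem prod_bm' : (List.ofFn (bm' i x)).prod = (List.ofFn x).prod := by
  apply prod_two i
  · exact fun l h1 h2 => bm'_ne i x l h1 h2
  · rw [bm'_cs, bm'_su]
    group

theorem pow_bm (m : Fin (n + 1) → ℕ) (h : ∀ l, x l ^ m l = 1) (l : Fin (n + 1)) :
    bm i x l ^ m (Equiv.swap i.castSucc i.succ l) = 1 := by
  by_cases h1 : l = i.castSucc
  · rw [h1, bm_cs, Equiv.swap_apply_left, conj_pow, h, mul_one, mul_inv_cancel]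
  by_cases h2 : l = i.succ
  · rw [h2, bm_su, Equiv.swap_apply_right, h]
  · rw [bm_ne i x l h1 h2, Equiv.swap_apply_of_ne_of_ne h1 h2, h]

theorem pow_bm' (m : Fin (n + 1) → ℕ)
    (h : ∀ l, x l ^ m (Equiv.swap i.castSucc i.succ l) = 1) (l : Fin (n + 1)) :
    bm' i x l ^ m l = 1 := by
  by_cases h1 : l = i.castSucc
  · have h3 := h i.succ
    rw [Equiv.swap_apply_right] at h3
    rw [h1, bm'_cs, h3]
  by_cases h2 : l = i.succ
  · have h3 := h i.castSucc
    rw [Equiv.swap_apply_left] at h3
    rw [h2, bm'_su]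
    have h4 : (x i.succ)⁻¹ * x i.castSucc * x i.succ =
      (x i.succ)⁻¹ * x i.castSucc * ((x i.succ)⁻¹)⁻¹ := by rw [inv_inv]
    rw [h4, conj_pow, h3, mul_one, mul_inv_cancel]
  · have h3 := h l
    rw [Equiv.swap_apply_of_ne_of_ne h1 h2] at h3
    rw [bm'_ne i x l h1 h2, h3]

end brd

variable {g : ℕ}

/-- an adjacent transposition of the periods -/
theorem iso_swap {n : ℕ} (i : Fin n) (m : Fin (n + 1) → ℕ) :
    Nonempty (SigGroup g (n + 1) m ≃* SigGroup g (n + 1) (m ∘ Equiv.swap i.castSucc i.succ)) := by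
  set m' : Fin (n + 1) → ℕ := m ∘ Equiv.swap i.castSucc i.succ with hm'
  let f : SigGroup g (n + 1) m' →* SigGroup g (n + 1) m :=
    lift aa bb (bm i xx) (by rw [prod_bm]; exact long) (by
      intro l
      exact pow_bm i xx m xx_pow l)
  let f' : SigGroup g (n + 1) m →* SigGroup g (n + 1) m' :=
    lift aa bb (bm' i xx) (by rw [prod_bm']; exact long) (by
      intro l
      exact pow_bm' i xx m (fun l => xx_pow (m := m') l) l)
  refine ⟨(MulEquiv.ofBijective f' ?_)⟩
  have h1 : f.comp f' = MonoidHom.id _ := by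
    apply hom_ext
    · intro l
      show f (f' (aa l)) = aa l
      rw [lift_aa, lift_aa]
    · intro l
      show f (f' (bb l)) = bb l
      rw [lift_bb, lift_bb]
    · intro l
      show f (f' (xx l)) = xx l
      rw [lift_xx]
      by_cases h1 : l = i.castSucc
      · rw [h1, bm'_cs, lift_xx, bm_su]
      by_cases h2 : l = i.succ
      · rw [h2, bm'_su, map_mul, map_mul, map_inv, lift_xx, lift_xx, bm_su, bm_cs]
        group
      · rw [bm'_ne i xx l h1 h2, lift_xx, bm_ne i xx l h1 h2]
  have h2 : f'.comp f = MonoidHom.id _ := by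
    apply hom_ext
    · intro l
      show f' (f (aa l)) = aa l
      rw [lift_aa, lift_aa]
    · intro l
      show f' (f (bb l)) = bb l
      rw [lift_bb, lift_bb]
    · intro l
      show f' (f (xx l)) = xx l
      rw [lift_xx]
      by_cases h1 : l = i.castSucc
      · rw [h1, bm_cs, map_mul, map_mul, map_inv, lift_xx, lift_xx, bm'_su, bm'_cs]
        group
      by_cases h2 : l = i.succ
      · rw [h2, bm_su, lift_xx, bm'_cs]
      · rw [bm_ne i xx l h1 h2, lift_xx, bm'_ne i xx l h1 h2]
  constructor
  · intro x y h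
    rw [← MonoidHom.id_apply _ x, ← MonoidHom.id_apply _ y, ← h1, MonoidHom.comp_apply,
      MonoidHom.comp_apply, h]
  · intro x
    exact ⟨f x, DFunLike.congr_fun h2 x⟩

theorem iso_perm {k : ℕ} (σ : Equiv.Perm (Fin k)) :
    ∀ m : Fin k → ℕ, Nonempty (SigGroup g k m ≃* SigGroup g k (m ∘ σ)) := by
  cases k with
  | zero =>
    intro m
    rw [show m ∘ σ = m from Subsingleton.elim _ _]
    exact ⟨MulEquiv.refl _⟩
  | succ n =>
    have h : σ ∈ Submonoid.closure (Set.range fun i : Fin n => Equiv.swap i.castSucc i.succ) := by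
      rw [Equiv.Perm.mclosure_swap_castSucc_succ]
      trivial
    induction h using Submonoid.closure_induction with
    | mem x hx =>
      obtain ⟨i, rfl⟩ := hx
      exact fun m => iso_swap i m
    | one => exact fun m => ⟨MulEquiv.refl _⟩
    | mul x y _ _ hx hy =>
      intro m
      obtain ⟨e1⟩ := hx m
      obtain ⟨e2⟩ := hy (m ∘ x)
      exact ⟨e1.trans e2⟩

theorem iso_of_equiv {k k' : ℕ} {m : Fin k → ℕ} {m' : Fin k' → ℕ} (e : Fin k ≃ Fin k')
    (h : ∀ j, m' (e j) = m j) : Nonempty (SigGroup g k m ≃* SigGroup g k' m') := by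
  have hk : k = k' := by simpa using Fintype.card_congr e
  subst hk
  have h1 : m = m' ∘ e := by
    funext j
    exact (h j).symm
  obtain ⟨f⟩ := iso_perm (g := g) e m'
  rw [h1]
  exact ⟨f.symm⟩

end Pool.Agent.Sg
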