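import Pool.Agent.Lib.MP_305fdd_al.Su.Sig.PM

/-!
# MP_305fdd_al, cocompact Fuchsian groups: orbits on coset spaces
-/

set_option autoImplicit false
set_option linter.unusedSectionVars false

namespace Pool.Agent.Sg

open Pool.Agent.SuD MulAction

section brn

variable {Q : Type} [Group Q] [Finite Q] (S H : Subgroup Q)

/-- the number of the orbits of `S` on `Q ⧸ H` -/
noncomputable def orb : ℕ := Nat.card (MulAction.orbitRel.Quotient S (Q ⧸ H))

/-- the number of the `u` with `u h u⁻¹ ∈ S` -/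
noncomputable def cj (h : Q) : ℕ := Nat.card {u : Q // u * h * u⁻¹ ∈ S}

theorem orb_mul : orb S H * Nat.card S * Nat.card H =
    Nat.card {x : Q × Q // x.1 ∈ H ∧ x.2 * x.1 * x.2⁻¹ ∈ S} := by
  unfold orb
  rw [← Nat.card_prod, ← Nat.card_congr (sigmaFixedByEquivOrbitsProdGroup S (Q ⧸ H)),
    ← Nat.card_prod]
  apply Nat.card_congr
  have e1 : ((Σ s : S, fixedBy (Q ⧸ H) s) × H) ≃ (Σ s : S, (fixedBy (Q ⧸ H) s × H)) :=
    { toFun := fun x => ⟨x.1.1, (x.1.2, x.2)⟩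
      invFun := fun x => (⟨x.1, x.2.1⟩, x.2.2)
      left_inv := fun x => rfl
      right_inv := fun x => rfl }
  have e2 : (Σ s : S, (fixedBy (Q ⧸ H) s × H)) ≃
      (Σ s : S, ((QuotientGroup.mk : Q → Q ⧸ H) ⁻¹' (fixedBy (Q ⧸ H) s))) :=
    Equiv.sigmaCongrRight fun s =>
      (Equiv.prodComm _ _).trans (QuotientGroup.preimageMkEquivSubgroupProdSet H _).symm
  refine e1.trans (e2.trans ?_)
  have key : ∀ (s : S) (u : Q), u ∈ ((QuotientGroup.mk : Q → Q ⧸ H) ⁻¹' (fixedBy (Q ⧸ H) s)) ↔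
      u⁻¹ * s.1 * u ∈ H := by
    intro s u
    rw [Set.mem_preimage, mem_fixedBy]
    have h1 : s • (u : Q ⧸ H) = ((s.1 * u : Q) : Q ⧸ H) := rfl
    rw [h1, eq_comm, QuotientGroup.eq, mul_assoc]
  refine (Equiv.subtypeProdEquivSigmaSubtype (fun (s : S) (u : Q) =>
    u ∈ ((QuotientGroup.mk : Q → Q ⧸ H) ⁻¹' (fixedBy (Q ⧸ H) s)))).symm.trans ?_
  exact
    { toFun := fun x => ⟨(x.1.2⁻¹ * x.1.1.1 * x.1.2, x.1.2), (key _ _).1 x.2, by
        show x.1.2 * (x.1.2⁻¹ * x.1.1.1 * x.1.2) * x.1.2⁻¹ ∈ S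
        rw [show x.1.2 * (x.1.2⁻¹ * x.1.1.1 * x.1.2) * x.1.2⁻¹ = x.1.1.1 by group]
        exact x.1.1.2⟩
      invFun := fun y => ⟨(⟨y.1.2 * y.1.1 * y.1.2⁻¹, y.2.2⟩, y.1.2), (key _ _).2 (by
        show y.1.2⁻¹ * (y.1.2 * y.1.1 * y.1.2⁻¹) * y.1.2 ∈ H
        rw [show y.1.2⁻¹ * (y.1.2 * y.1.1 * y.1.2⁻¹) * y.1.2 = y.1.1 by group]
        exact y.2.1)⟩
      left_inv := by
        rintro ⟨⟨⟨s, hs⟩, u⟩, hu⟩
        apply Subtype.ext
        apply Prod.ext
        · apply Subtype.ext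
          show u * (u⁻¹ * s * u) * u⁻¹ = s
          group
        · rfl
      right_inv := by
        rintro ⟨⟨x, u⟩, hx⟩
        apply Subtype.ext
        apply Prod.ext
        · show u⁻¹ * (u * x * u⁻¹) * u = x
          group
        · rfl }

theorem card_pairs (T : Finset Q) :
    Nat.card {x : Q × Q // x.1 ∈ T ∧ x.2 * x.1 * x.2⁻¹ ∈ S} = ∑ h ∈ T, cj S h := by
  rw [← Finset.sum_coe_sort]
  unfold cj
  rw [← Nat.card_sigma]
  apply Nat.card_congr
  exact
    { toFun := fun x => ⟨⟨x.1.1, x.2.1⟩, ⟨x.1.2, x.2.2⟩⟩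
      invFun := fun y => ⟨(y.1.1, y.2.1), y.1.2, y.2.2⟩
      left_inv := fun x => rfl
      right_inv := fun x => rfl }

theorem orb_mul_eq (T : Finset Q) (hT : ∀ h, h ∈ T ↔ h ∈ H) :
    orb S H * Nat.card S * Nat.card H = ∑ h ∈ T, cj S h := by
  rw [orb_mul, ← card_pairs]
  apply Nat.card_congr
  apply Equiv.subtypeEquivRight
  intro x
  rw [hT]

/-- the pairs, counted with the other projection -/
theorem sum_cj (T : Finset Q) (hT : ∀ h u : Q, u * h * u⁻¹ ∈ T ↔ h ∈ T) :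
    ∑ h ∈ T, cj S h = Nat.card Q * Nat.card {s : Q // s ∈ T ∧ s ∈ S} := by
  rw [← card_pairs, ← Nat.card_prod]
  apply Nat.card_congr
  exact
    { toFun := fun x => (x.1.2, ⟨x.1.2 * x.1.1 * x.1.2⁻¹, (hT _ _).2 x.2.1, x.2.2⟩)
      invFun := fun y => ⟨(y.1⁻¹ * y.2.1 * y.1, y.1), by
          have h := hT y.2.1 y.1⁻¹
          rw [inv_inv] at h
          exact h.2 y.2.2.1, by
          show y.1 * (y.1⁻¹ * y.2.1 * y.1) * y.1⁻¹ ∈ S
          rw [show y.1 * (y.1⁻¹ * y.2.1 * y.1) * y.1⁻¹ = y.2.1 by group]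
          exact y.2.2.2⟩
      left_inv := by
        rintro ⟨⟨x, u⟩, hx⟩
        apply Subtype.ext
        apply Prod.ext
        · show u⁻¹ * (u * x * u⁻¹) * u = x
          group
        · rfl
      right_inv := by
        rintro ⟨u, ⟨s, hs⟩⟩
        apply Prod.ext
        · rfl
        · apply Subtype.ext
          show u * (u⁻¹ * s * u) * u⁻¹ = s
          group }

theorem card_ord (x : Q) (n : ℕ) : Nat.card {s : Q // orderOf s = n ∧ s ∈ Subgroup.zpowers x} =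
    if n ∣ orderOf x then Nat.totient n else 0 := by
  classical
  have := Fintype.ofFinite Q
  split_ifs with h
  · have h1 : n ∣ Fintype.card (Subgroup.zpowers x) := by
      rwa [Fintype.card_zpowers]
    rw [← IsCyclic.card_orderOf_eq_totient h1, ← Fintype.card_subtype, ← Nat.card_eq_fintype_card]
    apply Nat.card_congr
    exact
      { toFun := fun s => ⟨⟨s.1, s.2.2⟩, by rw [Subgroup.orderOf_mk]; exact s.2.1⟩
        invFun := fun s => ⟨s.1.1, by rw [Subgroup.orderOf_coe]; exact s.2, s.1.2⟩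
        left_inv := fun s => rfl
        right_inv := fun s => rfl }
  · rw [Nat.card_eq_zero]
    left
    refine ⟨?_⟩
    rintro ⟨s, hs, hx⟩
    apply h
    rw [← hs]
    exact orderOf_dvd_of_mem_zpowers hx

end brn

end Pool.Agent.Sg
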