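import Pool.Agent.Lib.MP_305fdd_al.Su.Sig.Defs
import Pool.Agent.Lib.MP_305fdd_al.Su.Dual.ZC

/-!
# MP_305fdd_al, cocompact Fuchsian groups: the number of the crossed homomorphisms

`|Z¹(S; P)| * |I P| = |P| ^ (2 g) * ∏ |(1 - x_j) P|` for the group `S` of a signature and every
finite module `P` of order prime to the `m_j`.
-/

set_option autoImplicit false
set_option linter.unusedSectionVars false

namespace Pool.Agent.Sg

open Pool.Agent.Lib.MP_305fdd_al Pool.Agent.MP_305fdd_al Pool.Agent.SuD Pool.Agent.SurfCnt

open scoped commutatorElement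

section xd

variable {Q P : Type} [Group Q] [AddCommGroup P] [DistribMulAction Q P]

/-- the translation part of the product of the `(w j, x j)` -/
def xD {k : ℕ} (x : Fin k → Q) (w : Fin k → P) : P :=
  (List.ofFn fun j => (⟨w j, x j⟩ : AF Q P)).prod.v

/-- the product of the `x j` -/
def xR {k : ℕ} (x : Fin k → Q) : Q := (List.ofFn x).prod

theorem xprod_q {k : ℕ} (z : Fin k → AF Q P) :
    (List.ofFn z).prod.q = xR fun j => (z j).q := by
  have h := map_ofFn_prod (AF.pr Q P) z
  exact h

theorem xR_succ {k : ℕ} (x : Fin (k + 1) → Q) :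
    xR x = xR (fun i => x (Fin.castSucc i)) * x (Fin.last k) := by
  unfold xR
  rw [List.ofFn_succ', List.concat_eq_append, List.prod_append, List.prod_singleton]

theorem xD_succ {k : ℕ} (x : Fin (k + 1) → Q) (w : Fin (k + 1) → P) :
    xD x w = xD (fun i => x (Fin.castSucc i)) (fun i => w (Fin.castSucc i)) +
      xR (fun i => x (Fin.castSucc i)) • w (Fin.last k) := by
  unfold xD
  rw [List.ofFn_succ', List.concat_eq_append, List.prod_append, List.prod_singleton, AF.mul_v,
    xprod_q]

theorem xD_zero (x : Fin 0 → Q) (w : Fin 0 → P) : xD x w = 0 := by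
  simp [xD]

theorem xD_add : ∀ {k : ℕ} (x : Fin k → Q) (w w' : Fin k → P),
    xD x (w + w') = xD x w + xD x w' := by
  intro k
  induction k with
  | zero => intro x w w'; simp [xD_zero]
  | succ k ih =>
    intro x w w'
    rw [xD_succ, xD_succ, xD_succ]
    have h : (fun i => (w + w') (Fin.castSucc i)) = (fun i => w (Fin.castSucc i)) +
      fun i => w' (Fin.castSucc i) := rfl
    rw [h, ih, Pi.add_apply, smul_add]
    abel

/-- the subgroup generated by the `x j` -/
def xg {k : ℕ} (x : Fin k → Q) : Subgroup Q := Subgroup.closure (Set.range x)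

theorem x_mem_xg {k : ℕ} (x : Fin k → Q) (j : Fin k) : x j ∈ xg x :=
  Subgroup.subset_closure ⟨j, rfl⟩

theorem xg_cs_le {k : ℕ} (x : Fin (k + 1) → Q) : xg (fun i => x (Fin.castSucc i)) ≤ xg x := by
  unfold xg
  rw [Subgroup.closure_le]
  rintro _ ⟨i, rfl⟩
  exact x_mem_xg x _

theorem xR_mem {k : ℕ} (x : Fin k → Q) : xR x ∈ xg x := by
  unfold xR
  apply Subgroup.list_prod_mem
  intro y hy
  rw [List.mem_ofFn] at hy
  obtain ⟨i, rfl⟩ := hy
  exact x_mem_xg x i

theorem xD_mem : ∀ {k : ℕ} (x : Fin k → Q) (w : Fin k → P),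
    (∀ j, w j ∈ IP P (Subgroup.zpowers (x j))) → xD x w ∈ IP P (xg x) := by
  intro k
  induction k with
  | zero => intro x w _; rw [xD_zero]; exact AddSubgroup.zero_mem _
  | succ k ih =>
    intro x w hw
    rw [xD_succ]
    refine AddSubgroup.add_mem _ (IP_mono (xg_cs_le x) (ih _ _ fun j => hw _)) ?_
    refine IP_smul (xg_cs_le x (xR_mem _)) (IP_mono ?_ (hw _))
    rw [Subgroup.zpowers_le]
    exact x_mem_xg x _

/-- The image of the relator map contains the differences. -/
theorem IP_le_xD (N : AddSubgroup P) (K : Subgroup Q) (hK : IP P K ≤ N) (s : Q) (hs : s ∈ K) :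
    ∀ {k : ℕ} (x : Fin k → Q),
      (∀ w : Fin k → P, (∀ j, w j ∈ IP P (Subgroup.zpowers (x j))) → s • xD x w ∈ N) →
      IP P (K ⊔ xg x) ≤ N := by
  intro k
  induction k with
  | zero =>
    intro x _
    have h : xg x = ⊥ := by
      unfold xg
      rw [Set.range_eq_empty, Subgroup.closure_empty]
    rw [h, sup_bot_eq]
    exact hK
  | succ k ih =>
    intro x hx
    set x' : Fin k → Q := fun i => x (Fin.castSucc i) with hx'
    have h1 : IP P (K ⊔ xg x') ≤ N := by
      apply ih
      intro w hw
      have h2 := hx (Fin.snoc (α := fun _ => P) w 0) (by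
        intro j
        induction j using Fin.lastCases with
        | last => rw [Fin.snoc_last]; exact AddSubgroup.zero_mem _
        | cast j => rw [Fin.snoc_castSucc]; exact hw j)
      rw [xD_succ] at h2
      simp only [Fin.snoc_castSucc, Fin.snoc_last, smul_zero, add_zero] at h2
      exact h2
    have h2 : ∀ p : P, p - x (Fin.last k) • p ∈ N := by
      intro p
      have h3 := hx (Fin.snoc (α := fun _ => P) 0 (p - x (Fin.last k) • p)) (by
        intro j
        induction j using Fin.lastCases with
        | last => rw [Fin.snoc_last]; exact sub_mem_IP (Subgroup.mem_zpowers _) p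
        | cast j => rw [Fin.snoc_castSucc]; exact AddSubgroup.zero_mem _)
      rw [xD_succ] at h3
      simp only [Fin.snoc_castSucc, Fin.snoc_last] at h3
      have h4 : xD x' (fun _ => (0 : P)) = 0 := by
        have h5 := xD_add (P := P) x' 0 0
        rw [add_zero] at h5
        exact left_eq_add.1 h5
      have h5 : (fun i : Fin k => (0 : Fin k → P) i) = fun _ => (0 : P) := rfl
      rw [h5, h4, zero_add, ← mul_smul] at h3
      have h6 : s * xR x' ∈ K ⊔ xg x' :=
        mul_mem (Subgroup.mem_sup_left hs) (Subgroup.mem_sup_right (xR_mem x'))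
      have h7 := h1 (sub_mem_IP (P := P) h6 (p - x (Fin.last k) • p))
      have h8 := N.add_mem h7 h3
      rwa [sub_add_cancel] at h8
    have h3 : K ⊔ xg x = Subgroup.closure ((K ⊔ xg x' : Subgroup Q) ∪ {x (Fin.last k)}) := by
      apply le_antisymm
      · refine sup_le ?_ ?_
        · exact fun y hy => Subgroup.subset_closure (Or.inl (Subgroup.mem_sup_left hy))
        · unfold xg
          rw [Subgroup.closure_le]
          rintro _ ⟨j, rfl⟩
          induction j using Fin.lastCases with
          | last => exact Subgroup.subset_closure (Or.inr rfl)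
          | cast j =>
            exact Subgroup.subset_closure (Or.inl (Subgroup.mem_sup_right (x_mem_xg x' j)))
      · rw [Subgroup.closure_le]
        rintro y (hy | hy)
        · exact (sup_le_sup_left (xg_cs_le x) K) hy
        · rw [Set.mem_singleton_iff.1 hy]
          exact Subgroup.mem_sup_right (x_mem_xg x _)
    rw [h3]
    apply IP_le_of_gens
    rintro q (hq | hq) p
    · exact h1 (sub_mem_IP hq p)
    · rw [Set.mem_singleton_iff.1 hq]
      exact h2 p

end xd

end Pool.Agent.Sg
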