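import Pool.Agent.Lib.MP_305fdd_al.Su.Sig.Cnt

/-!
# MP_305fdd_al, cocompact Fuchsian groups: the number of the crossed homomorphisms (end)
-/

set_option autoImplicit false
set_option linter.unusedSectionVars false

namespace Pool.Agent.Sg

open Pool.Agent.Lib.MP_305fdd_al Pool.Agent.MP_305fdd_al Pool.Agent.SuD Pool.Agent.SurfCnt

open scoped commutatorElement

section pw

variable {Q P : Type} [Group Q] [AddCommGroup P] [DistribMulAction Q P]

theorem AF_pow_q (z : AF Q P) (n : ℕ) : (z ^ n).q = z.q ^ n := by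
  have h := map_pow (AF.pr Q P) z n
  exact h

theorem AF_pow_v (z : AF Q P) (n : ℕ) : (z ^ n).v = ∑ i ∈ Finset.range n, z.q ^ i • z.v := by
  induction n with
  | zero => simp
  | succ n ih => rw [pow_succ, AF.mul_v, ih, AF_pow_q, Finset.sum_range_succ]

/-- the norm of `q` -/
def nm (P : Type) [AddCommGroup P] [DistribMulAction Q P] (q : Q) (n : ℕ) : P →+ P where
  toFun w := ∑ i ∈ Finset.range n, q ^ i • w
  map_zero' := by simp
  map_add' w w' := by simp only [smul_add, Finset.sum_add_distrib]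

theorem IP_le_nm {q : Q} {n : ℕ} (hq : q ^ n = 1) : IP P (Subgroup.zpowers q) ≤ (nm P q n).ker := by
  rw [Subgroup.zpowers_eq_closure]
  apply IP_le_of_gens
  intro s hs p
  rw [Set.mem_singleton_iff.1 hs]
  show ∑ i ∈ Finset.range n, q ^ i • (p - q • p) = 0
  have h : ∀ i ∈ Finset.range n, q ^ i • (p - q • p) = q ^ i • p - q ^ (i + 1) • p := by
    intro i _
    rw [smul_sub, ← mul_smul, ← pow_succ]
  rw [Finset.sum_congr rfl h, Finset.sum_range_sub' (fun i => q ^ i • p), pow_zero, hq, sub_self]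

theorem nm_mem {q : Q} (n : ℕ) (w : P) (h : nm P q n w = 0) : n • w ∈ IP P (Subgroup.zpowers q) := by
  have h1 : n • w = ∑ i ∈ Finset.range n, (w - q ^ i • w) := by
    rw [Finset.sum_sub_distrib, Finset.sum_const, Finset.card_range]
    have h2 : ∑ i ∈ Finset.range n, q ^ i • w = 0 := h
    rw [h2, sub_zero]
  rw [h1]
  apply AddSubgroup.sum_mem
  intro i _
  exact sub_mem_IP (Subgroup.pow_mem _ (Subgroup.mem_zpowers q) i) w

theorem mem_of_nsmul {P : Type} [AddCommGroup P] [Finite P] {n : ℕ} (hn : n.Coprime (Nat.card P))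
    (N : AddSubgroup P) {w : P} (h : n • w ∈ N) : w ∈ N := by
  have h1 : (n.gcdA (Nat.card P)) • ((n : ℤ) • w) = w := by
    have h2 : ((1 : ℕ) : ℤ) = n * n.gcdA (Nat.card P) + Nat.card P * n.gcdB (Nat.card P) := by
      rw [← hn]
      exact Nat.gcd_eq_gcd_ab n (Nat.card P)
    have h3 : (Nat.card P : ℤ) • w = 0 := by
      rw [natCast_zsmul]
      exact card_nsmul_eq_zero'
    have h4 : (1 : ℤ) • w = w := one_smul ℤ w
    rw [show (1 : ℤ) = n * n.gcdA (Nat.card P) + Nat.card P * n.gcdB (Nat.card P) from h2,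
      add_smul, mul_comm (Nat.card P : ℤ), mul_smul (n.gcdB _), h3, smul_zero, add_zero,
      mul_comm, mul_smul] at h4
    exact h4
  rw [← h1, natCast_zsmul]
  exact N.zsmul_mem h _

theorem pow_eq_one_iff [Finite P] {q : Q} {n : ℕ} (hq : q ^ n = 1) (hn : n.Coprime (Nat.card P))
    (w : P) : (⟨w, q⟩ : AF Q P) ^ n = 1 ↔ w ∈ IP P (Subgroup.zpowers q) := by
  constructor
  · intro h
    apply mem_of_nsmul hn
    apply nm_mem
    have h1 := congrArg AF.v h
    rw [AF_pow_v] at h1
    exact h1
  · intro h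
    apply AF.ext
    · rw [AF_pow_v]
      exact IP_le_nm hq h
    · rw [AF_pow_q]
      exact hq

end pw

section rel

variable {Q P : Type} [Group Q] [AddCommGroup P] [DistribMulAction Q P]

/-- the relator map -/
def rD {g k : ℕ} (a b : Fin g → Q) (x : Fin k → Q) :
    ((Fin g → P) × (Fin g → P)) × (∀ j, IP P (Subgroup.zpowers (x j))) →+ P where
  toFun y := sD a b y.1.1 y.1.2 + sR a b • xD x (fun j => (y.2 j).1)
  map_zero' := by
    have h1 : xD x (fun _ => (0 : P)) = 0 := by
      have h5 := xD_add (P := P) x 0 0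
      rw [add_zero] at h5
      exact left_eq_add.1 h5
    have h2 : sD a b (0 : Fin g → P) 0 = 0 := (sDh (P := P) a b).map_zero
    show sD a b (0 : Fin g → P) 0 + sR a b • xD x (fun _ => (0 : P)) = 0
    rw [h1, h2, smul_zero, add_zero]
  map_add' y z := by
    have h1 : xD x (fun j => ((y + z).2 j).1) = xD x (fun j => (y.2 j).1) +
        xD x (fun j => (z.2 j).1) := xD_add x _ _
    have h2 : sD a b (y + z).1.1 (y + z).1.2 = sD a b y.1.1 y.1.2 + sD a b z.1.1 z.1.2 :=
      sD_add a b _ _ _ _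
    rw [h1, h2, smul_add]
    abel

theorem range_rD {g k : ℕ} (a b : Fin g → Q) (x : Fin k → Q) :
    (rD (P := P) a b x).range = IP P (gp a b ⊔ xg x) := by
  apply le_antisymm
  · rintro _ ⟨y, rfl⟩
    show sD a b y.1.1 y.1.2 + sR a b • xD x (fun j => (y.2 j).1) ∈ _
    refine AddSubgroup.add_mem _ (IP_mono le_sup_left (sD_mem a b _ _)) ?_
    exact IP_smul (Subgroup.mem_sup_left (sR_mem a b))
      (IP_mono le_sup_right (xD_mem x _ fun j => (y.2 j).2))
  · apply IP_le_xD _ (gp a b) _ (sR a b) (sR_mem a b)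
    · intro w hw
      refine ⟨((0, 0), fun j => ⟨w j, hw j⟩), ?_⟩
      have h2 : sD a b (0 : Fin g → P) 0 = 0 := (sDh (P := P) a b).map_zero
      show sD a b (0 : Fin g → P) 0 + sR a b • xD x w = _
      rw [h2, zero_add]
    · intro z hz
      obtain ⟨⟨u, v⟩, h⟩ := IP_le_range a b hz
      refine ⟨((u, v), 0), ?_⟩
      have h1 : xD x (fun _ => (0 : P)) = 0 := by
        have h5 := xD_add (P := P) x 0 0
        rw [add_zero] at h5
        exact left_eq_add.1 h5
      show sD a b u v + sR a b • xD x (fun _ => (0 : P)) = z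
      rw [h1, smul_zero, add_zero]
      exact h

end rel

section count

variable {g k : ℕ} {m : Fin k → ℕ} {Q : Type} [Group Q] (θ : SigGroup g k m →* Q) (P : Type)
  [AddCommGroup P] [DistribMulAction Q P]

/-- the images of the generators -/
def ta {Q : Type} [Group Q] (θ : SigGroup g k m →* Q) : Fin g → Q := fun i => θ (aa i)

/-- the images of the generators -/
def tb {Q : Type} [Group Q] (θ : SigGroup g k m →* Q) : Fin g → Q := fun i => θ (bb i)

/-- the images of the generators -/
def tx {Q : Type} [Group Q] (θ : SigGroup g k m →* Q) : Fin k → Q := fun j => θ (xx j)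

theorem t_long (θ : SigGroup g k m →* Q) : sR (ta θ) (tb θ) * xR (tx θ) = 1 := by
  have h := congrArg θ (long (g := g) (k := k) (m := m))
  rw [map_mul, map_ofFn_comm, map_ofFn_prod, map_one] at h
  exact h

theorem t_pow (θ : SigGroup g k m →* Q) (j : Fin k) : tx θ j ^ m j = 1 := by
  have h := congrArg θ (xx_pow (g := g) (k := k) (m := m) j)
  rwa [map_pow, map_one] at h

theorem t_range : gp (ta θ) (tb θ) ⊔ xg (tx θ) = θ.range := by
  have h : θ.range = (Subgroup.closure ((Set.range (aa : Fin g → SigGroup g k m) ∪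
    Set.range bb) ∪ Set.range xx)).map θ := by
    rw [MonoidHom.range_eq_map, closure_gens]
  rw [h, MonoidHom.map_closure, Set.image_union, Set.image_union, Subgroup.closure_union]
  unfold gp xg
  rw [← Set.range_comp, ← Set.range_comp, ← Set.range_comp]
  rfl

variable [Finite P] (hm : ∀ j, (m j).Coprime (Nat.card P))

include hm in
theorem crs_mem (c : Crs θ P) (j : Fin k) : c.1 (xx j) ∈ IP P (Subgroup.zpowers (tx θ j)) := by
  rw [← pow_eq_one_iff (t_pow θ j) (hm j)]
  have h : (Crs.hom c (xx j)) ^ m j = 1 := by rw [← map_pow, xx_pow, map_one]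
  exact h

/-- crossed homomorphisms are the solutions of the linear equation -/
def crsKer : Crs θ P ≃ (rD (P := P) (ta θ) (tb θ) (tx θ)).ker where
  toFun c := ⟨((fun i => c.1 (aa i), fun i => c.1 (bb i)),
      fun j => ⟨c.1 (xx j), crs_mem θ P hm c j⟩), by
    have h := congrArg (Crs.hom c) (long (g := g) (k := k) (m := m))
    rw [map_mul, map_ofFn_comm, map_ofFn_prod, map_one] at h
    have h1 := congrArg AF.v h
    rw [AF.mul_v, prod_q] at h1
    exact h1⟩
  invFun y := (crsEquiv θ P).symm ⟨lift (fun i => ⟨y.1.1.1 i, ta θ i⟩) (fun i => ⟨y.1.1.2 i, tb θ i⟩)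
      (fun j => ⟨(y.1.2 j).1, tx θ j⟩) (by
        apply AF.ext
        · rw [AF.mul_v, prod_q]
          exact y.2
        · rw [AF.mul_q, prod_q, xprod_q]
          exact t_long θ) (by
        intro j
        rw [pow_eq_one_iff (t_pow θ j) (hm j)]
        exact (y.1.2 j).2), by
    apply hom_ext
    · intro i; rw [MonoidHom.comp_apply, lift_aa]; rfl
    · intro i; rw [MonoidHom.comp_apply, lift_bb]; rfl
    · intro i; rw [MonoidHom.comp_apply, lift_xx]; rfl⟩
  left_inv c := by
    apply (crsEquiv θ P).injective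
    rw [Equiv.apply_symm_apply]
    apply Subtype.ext
    apply hom_ext
    · intro i; rw [lift_aa]; rfl
    · intro i; rw [lift_bb]; rfl
    · intro i; rw [lift_xx]; rfl
  right_inv y := by
    apply Subtype.ext
    apply Prod.ext
    · apply Prod.ext
      · funext i
        show AF.v (lift _ _ _ _ _ (aa i)) = _
        rw [lift_aa]
      · funext i
        show AF.v (lift _ _ _ _ _ (bb i)) = _
        rw [lift_bb]
    · funext j
      apply Subtype.ext
      show AF.v (lift _ _ _ _ _ (xx j)) = _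
      rw [lift_xx]

include hm in
/-- (ZC) for the group of a signature -/
theorem card_Crs_sig : Nat.card (Crs θ P) * Nat.card (IP P θ.range) =
    Nat.card P ^ (2 * g) * ∏ j, Nat.card (IP P (Subgroup.zpowers (θ (xx j)))) := by
  rw [← t_range, ← range_rD, Nat.card_congr (crsKer θ P hm), card_hom_eq, Nat.card_prod,
    Nat.card_prod, Nat.card_fun, Nat.card_fin, ← pow_add, Nat.card_pi]
  congr 2
  omega

end count

/-- two signatures with the same finite quotients -/
theorem card_eq {g k g' k' : ℕ} {m : Fin k → ℕ} {m' : Fin k' → ℕ}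
    (Φ : NatBij (SigGroup g k m) (SigGroup g' k' m')) {Q : Type} [Group Q] [Finite Q]
    (θ : SigGroup g k m →* Q) (P : Type) [AddCommGroup P] [DistribMulAction Q P] [Finite P]
    (hm : ∀ j, (m j).Coprime (Nat.card P)) (hm' : ∀ j, (m' j).Coprime (Nat.card P)) :
    Nat.card P ^ (2 * g) * ∏ j, Nat.card (IP P (Subgroup.zpowers (θ (xx j)))) =
    Nat.card P ^ (2 * g') *
      ∏ j, Nat.card (IP P (Subgroup.zpowers (Φ.toFun Q θ (xx j)))) := by
  have h1 : Nat.card (Crs θ P) = Nat.card (Crs (Φ.toFun Q θ) P) := by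
    rw [Nat.card_congr (crsEquiv θ P), Nat.card_congr (crsEquiv (Φ.toFun Q θ) P)]
    exact Φ.card_lifts (AF.pr Q P) θ
  rw [← card_Crs_sig θ P hm, ← card_Crs_sig (Φ.toFun Q θ) P hm', h1, ← Φ.range_eq θ]

end Pool.Agent.Sg
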