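import Mathlib.GroupTheory.PresentedGroup
import Mathlib.GroupTheory.Finiteness
import Mathlib.Tactic.Group
import Mathlib.GroupTheory.Commutator.Basic

/-!
# MP_305fdd_al, cocompact Fuchsian groups: the groups given by a signature

`SigGroup g k m`: generators `a_1, b_1, …, a_g, b_g, x_1, …, x_k`, relations
`[a_1, b_1] ⋯ [a_g, b_g] x_1 ⋯ x_k = 1` and `x_j ^ m_j = 1`.
-/

set_option autoImplicit false

namespace Pool.Agent.Sg

open scoped commutatorElement

/-- the generators -/
abbrev Gen (g k : ℕ) : Type := (Fin g × Bool) ⊕ Fin k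

/-- the relator `[a_1, b_1] ⋯ [a_g, b_g] x_1 ⋯ x_k` -/
def longRel (g k : ℕ) : FreeGroup (Gen g k) :=
  (List.ofFn fun i : Fin g =>
      ⁅FreeGroup.of (Sum.inl (i, false) : Gen g k), FreeGroup.of (Sum.inl (i, true) : Gen g k)⁆).prod *
    (List.ofFn fun j : Fin k => FreeGroup.of (Sum.inr j : Gen g k)).prod

/-- the relators -/
def rels (g k : ℕ) (m : Fin k → ℕ) : Set (FreeGroup (Gen g k)) :=
  insert (longRel g k) (Set.range fun j : Fin k => FreeGroup.of (Sum.inr j : Gen g k) ^ m j)

/-- The group of the signature `(g; m_1, …, m_k)`. -/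
def SigGroup (g k : ℕ) (m : Fin k → ℕ) : Type := PresentedGroup (rels g k m)

instance (g k : ℕ) (m : Fin k → ℕ) : Group (SigGroup g k m) :=
  inferInstanceAs (Group (PresentedGroup (rels g k m)))

section

variable {g k : ℕ} {m : Fin k → ℕ}

/-- the generator `a_i` -/
def aa (i : Fin g) : SigGroup g k m := PresentedGroup.of (rels := rels g k m) (Sum.inl (i, false))

/-- the generator `b_i` -/
def bb (i : Fin g) : SigGroup g k m := PresentedGroup.of (rels := rels g k m) (Sum.inl (i, true))

/-- the generator `x_j` -/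
def xx (j : Fin k) : SigGroup g k m := PresentedGroup.of (rels := rels g k m) (Sum.inr j)

theorem map_ofFn_comm {A B : Type} [Group A] [Group B] (φ : A →* B) {n : ℕ} (x y : Fin n → A) :
    φ (List.ofFn fun i => ⁅x i, y i⁆).prod = (List.ofFn fun i => ⁅φ (x i), φ (y i)⁆).prod := by
  rw [map_list_prod, List.map_ofFn]
  congr 2
  ext i
  simp [map_commutatorElement]

theorem map_ofFn_prod {A B : Type} [Group A] [Group B] (φ : A →* B) {n : ℕ} (x : Fin n → A) :
    φ (List.ofFn x).prod = (List.ofFn fun i => φ (x i)).prod := by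
  rw [map_list_prod, List.map_ofFn]
  rfl

theorem long : (List.ofFn fun i => ⁅(aa i : SigGroup g k m), bb i⁆).prod *
    (List.ofFn fun j => (xx j : SigGroup g k m)).prod = 1 := by
  have h : (PresentedGroup.mk (rels g k m)) (longRel g k) = 1 :=
    PresentedGroup.one_of_mem (Set.mem_insert _ _)
  unfold longRel at h
  rw [map_mul, map_ofFn_comm, map_ofFn_prod] at h
  exact h

theorem xx_pow (j : Fin k) : (xx j : SigGroup g k m) ^ m j = 1 := by
  have h : (PresentedGroup.mk (rels g k m)) (FreeGroup.of (Sum.inr j : Gen g k) ^ m j) = 1 :=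
    PresentedGroup.one_of_mem (Set.mem_insert_of_mem _ ⟨j, rfl⟩)
  rw [map_pow] at h
  exact h

/-- the homomorphism given by the images of the generators -/
def lift {G : Type} [Group G] (a b : Fin g → G) (x : Fin k → G)
    (h1 : (List.ofFn fun i => ⁅a i, b i⁆).prod * (List.ofFn x).prod = 1)
    (h2 : ∀ j, x j ^ m j = 1) : SigGroup g k m →* G :=
  PresentedGroup.toGroup (rels := rels g k m)
    (f := fun y : Gen g k => Sum.elim (fun z : Fin g × Bool => if z.2 then b z.1 else a z.1) x y) (by
      rintro r (rfl | ⟨j, rfl⟩)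
      · unfold longRel
        rw [map_mul, map_ofFn_comm, map_ofFn_prod]
        simpa using h1
      · simpa using h2 j)

section lift

variable {G : Type} [Group G] (a b : Fin g → G) (x : Fin k → G)
    (h1 : (List.ofFn fun i => ⁅a i, b i⁆).prod * (List.ofFn x).prod = 1)
    (h2 : ∀ j, x j ^ m j = 1)

@[simp] theorem lift_aa (i : Fin g) : lift (m := m) a b x h1 h2 (aa i) = a i :=
  PresentedGroup.toGroup.of _

@[simp] theorem lift_bb (i : Fin g) : lift (m := m) a b x h1 h2 (bb i) = b i :=
  PresentedGroup.toGroup.of _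

@[simp] theorem lift_xx (j : Fin k) : lift (m := m) a b x h1 h2 (xx j) = x j :=
  PresentedGroup.toGroup.of _

end lift

theorem hom_ext {G : Type} [Group G] {φ ψ : SigGroup g k m →* G} (ha : ∀ i, φ (aa i) = ψ (aa i))
    (hb : ∀ i, φ (bb i) = ψ (bb i)) (hx : ∀ j, φ (xx j) = ψ (xx j)) : φ = ψ := by
  apply PresentedGroup.ext
  rintro (⟨i, _ | _⟩ | j)
  · exact ha i
  · exact hb i
  · exact hx j

theorem closure_gens : Subgroup.closure ((Set.range (aa : Fin g → SigGroup g k m) ∪
    Set.range bb) ∪ Set.range xx) = ⊤ := by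
  rw [eq_top_iff]
  have h : Subgroup.closure (Set.range (PresentedGroup.of (rels := rels g k m))) = ⊤ :=
    PresentedGroup.closure_range_of _
  have h1 : (⊤ : Subgroup (SigGroup g k m)) =
      Subgroup.closure (Set.range (PresentedGroup.of (rels := rels g k m))) := h.symm
  rw [h1]
  apply Subgroup.closure_mono
  rintro _ ⟨(⟨i, _ | _⟩ | j), rfl⟩
  · exact Or.inl (Or.inl ⟨i, rfl⟩)
  · exact Or.inl (Or.inr ⟨i, rfl⟩)
  · exact Or.inr ⟨j, rfl⟩

instance : Group.FG (SigGroup g k m) := by
  refine ⟨⟨(Set.toFinite ((Set.range (aa : Fin g → SigGroup g k m) ∪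
    Set.range bb) ∪ Set.range xx)).toFinset, ?_⟩⟩
  rw [Set.Finite.coe_toFinset]
  exact closure_gens

end

end Pool.Agent.Sg
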