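import Pool.Agent.Lib.MP_305fdd_al.Su.Sig.Brn
import Pool.Agent.Lib.MP_305fdd_al.Su.Sig.Arith
import Mathlib.Data.Nat.Prime.Infinite

/-!
# MP_305fdd_al, cocompact Fuchsian groups: the signature is determined by the finite quotients
-/

set_option autoImplicit false
set_option linter.unusedSectionVars false

namespace Pool.Agent.Sg

open Pool.Agent.SuD MulAction Pool.Agent.Lib.MP_305fdd_al

section inv

variable {g k g' k' : ℕ} {m : Fin k → ℕ} {m' : Fin k' → ℕ}

theorem prod_IP {p : ℕ} [NeZero p] {Q : Type} [Group Q] [Finite Q] (H : Subgroup Q) {k : ℕ}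
    (x : Fin k → Q) : (∏ j, Nat.card (IP (PM p (Q ⧸ H)) (Subgroup.zpowers (x j)))) *
      p ^ (∑ j, orb (Subgroup.zpowers (x j)) H) = p ^ (Nat.card (Q ⧸ H) * k) := by
  rw [← Finset.prod_pow_eq_pow_sum, ← Finset.prod_mul_distrib,
    Finset.prod_congr rfl (g := fun _ => p ^ Nat.card (Q ⧸ H)), Finset.prod_const,
    Finset.card_univ, Fintype.card_fin, pow_mul]
  intro j _
  exact card_IP_PM _

/-- the number of the orbits -/
theorem orb_eq (hm : ∀ j, 2 ≤ m j) (hm' : ∀ j, 2 ≤ m' j)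
    (Φ : NatBij (SigGroup g k m) (SigGroup g' k' m')) {Q : Type} [Group Q] [Finite Q]
    (θ : SigGroup g k m →* Q) (H : Subgroup Q) :
    (2 * g + k) * Nat.card (Q ⧸ H) + ∑ j, orb (Subgroup.zpowers (Φ.toFun Q θ (xx j))) H =
    (2 * g' + k') * Nat.card (Q ⧸ H) + ∑ j, orb (Subgroup.zpowers (θ (xx j))) H := by
  obtain ⟨p, hp, hp1⟩ := Nat.exists_infinite_primes (∑ j, m j + ∑ j, m' j + 1)
  have hne : NeZero p := ⟨hp1.ne_zero⟩
  have h1 : ∀ j, (m j).Coprime (Nat.card (PM p (Q ⧸ H))) := by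
    intro j
    rw [card_PM]
    apply Nat.Coprime.pow_right
    apply Nat.Coprime.symm
    rw [hp1.coprime_iff_not_dvd]
    intro h
    have h2 := Nat.le_of_dvd (by have := hm j; omega) h
    have h3 := Finset.single_le_sum (f := m) (fun _ _ => Nat.zero_le _) (Finset.mem_univ j)
    omega
  have h1' : ∀ j, (m' j).Coprime (Nat.card (PM p (Q ⧸ H))) := by
    intro j
    rw [card_PM]
    apply Nat.Coprime.pow_right
    apply Nat.Coprime.symm
    rw [hp1.coprime_iff_not_dvd]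
    intro h
    have h2 := Nat.le_of_dvd (by have := hm' j; omega) h
    have h3 := Finset.single_le_sum (f := m') (fun _ _ => Nat.zero_le _) (Finset.mem_univ j)
    omega
  have h2 := card_eq Φ θ (PM p (Q ⧸ H)) h1 h1'
  rw [card_PM] at h2
  have h3 := prod_IP (p := p) H (fun j => θ (xx j : SigGroup g k m))
  have h4 := prod_IP (p := p) H (fun j => Φ.toFun Q θ (xx j : SigGroup g' k' m'))
  set A := ∏ j, Nat.card (IP (PM p (Q ⧸ H)) (Subgroup.zpowers (θ (xx j : SigGroup g k m))))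
  set A' := ∏ j, Nat.card (IP (PM p (Q ⧸ H))
    (Subgroup.zpowers (Φ.toFun Q θ (xx j : SigGroup g' k' m'))))
  set a := ∑ j, orb (Subgroup.zpowers (θ (xx j : SigGroup g k m))) H
  set a' := ∑ j, orb (Subgroup.zpowers (Φ.toFun Q θ (xx j : SigGroup g' k' m'))) H
  set X := Nat.card (Q ⧸ H)
  apply Nat.pow_right_injective hp1.two_le
  show p ^ ((2 * g + k) * X + a') = p ^ ((2 * g' + k') * X + a)
  calc p ^ ((2 * g + k) * X + a') = (p ^ X) ^ (2 * g) * p ^ (X * k) * p ^ a' := by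
        rw [← pow_mul, ← pow_add, ← pow_add]; congr 1; ring
    _ = ((p ^ X) ^ (2 * g) * A) * p ^ a * p ^ a' := by rw [← h3]; ring
    _ = ((p ^ X) ^ (2 * g') * A') * p ^ a * p ^ a' := by rw [h2]
    _ = (p ^ X) ^ (2 * g') * p ^ (X * k') * p ^ a := by rw [← h4]; ring
    _ = p ^ ((2 * g' + k') * X + a) := by
        rw [← pow_mul, ← pow_add, ← pow_add]; congr 1; ring

theorem orb_top {Q : Type} [Group Q] [Finite Q] (S : Subgroup Q) : orb S (⊤ : Subgroup Q) = 1 := by
  unfold orb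
  have h1 : Subsingleton (Q ⧸ (⊤ : Subgroup Q)) := QuotientGroup.subsingleton_quotient_top
  have h2 : Subsingleton (MulAction.orbitRel.Quotient S (Q ⧸ (⊤ : Subgroup Q))) :=
    Quotient.instSubsingletonQuotient _
  have h3 : Nonempty (MulAction.orbitRel.Quotient S (Q ⧸ (⊤ : Subgroup Q))) :=
    ⟨Quotient.mk'' ((1 : Q) : Q ⧸ (⊤ : Subgroup Q))⟩
  exact Nat.card_unique

/-- the genus is determined by the finite quotients -/
theorem genus_eq (hm : ∀ j, 2 ≤ m j) (hm' : ∀ j, 2 ≤ m' j)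
    (Φ : NatBij (SigGroup g k m) (SigGroup g' k' m')) : g = g' := by
  have h := orb_eq hm hm' Φ (1 : SigGroup g k m →* Unit) ⊤
  simp only [orb_top, Finset.sum_const, Finset.card_univ, Fintype.card_fin, smul_eq_mul,
    mul_one] at h
  have h1 : Nat.card (Unit ⧸ (⊤ : Subgroup Unit)) = 1 := Nat.card_unique
  rw [h1] at h
  omega

/-- exact quotients -/
def Exact (g k : ℕ) (m : Fin k → ℕ) : Prop :=
  ∃ (Q : Type) (_ : Group Q) (_ : Finite Q) (θ : SigGroup g k m →* Q), ∀ j, orderOf (θ (xx j)) = m j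

/-- a finite quotient exact for both groups -/
theorem exists_exact (Φ : NatBij (SigGroup g k m) (SigGroup g' k' m')) (h : Exact g k m)
    (h' : Exact g' k' m') : ∃ (Q : Type) (_ : Group Q) (_ : Finite Q) (θ : SigGroup g k m →* Q),
      (∀ j, orderOf (θ (xx j)) = m j) ∧ ∀ j, orderOf (Φ.toFun Q θ (xx j)) = m' j := by
  obtain ⟨Q, _, _, θ, hθ⟩ := h
  obtain ⟨Q', _, _, θ', hθ'⟩ := h'
  refine ⟨Q × Q', inferInstance, inferInstance, θ.prod (Φ.invFun Q' θ'), fun j => ?_, fun j => ?_⟩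
  · apply Nat.dvd_antisymm
    · rw [orderOf_dvd_iff_pow_eq_one, ← map_pow, xx_pow, map_one]
    · rw [← hθ j]
      exact orderOf_map_dvd (MonoidHom.fst Q Q') _
  · apply Nat.dvd_antisymm
    · rw [orderOf_dvd_iff_pow_eq_one, ← map_pow, xx_pow, map_one]
    · have h1 := Φ.nat (MonoidHom.snd Q Q') (θ.prod (Φ.invFun Q' θ'))
      rw [MonoidHom.snd_comp_prod, Φ.right_inv] at h1
      have h2 := orderOf_map_dvd (MonoidHom.snd Q Q')
        (Φ.toFun (Q × Q') (θ.prod (Φ.invFun Q' θ')) (xx j))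
      rw [← MonoidHom.comp_apply, ← h1, hθ' j] at h2
      exact h2

/-- the weight of an element -/
noncomputable def wt {Q : Type} [Group Q] {k : ℕ} (x : Fin k → Q) (h : Q) : ℚ :=
  ∑ j, (cj (Subgroup.zpowers (x j)) h : ℚ) / orderOf (x j)

theorem sum_orb {Q : Type} [Group Q] [Finite Q] {k : ℕ} (x : Fin k → Q) (H : Subgroup Q)
    (T : Finset Q) (hT : ∀ y, y ∈ T ↔ y ∈ H) :
    ((∑ j, orb (Subgroup.zpowers (x j)) H : ℕ) : ℚ) * Nat.card H = ∑ y ∈ T, wt x y := by
  unfold wt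
  rw [Finset.sum_comm, Nat.cast_sum, Finset.sum_mul]
  apply Finset.sum_congr rfl
  intro j _
  rw [← Finset.sum_div, eq_div_iff (by exact_mod_cast (orderOf_pos (x j)).ne')]
  have h := orb_mul_eq (Subgroup.zpowers (x j)) H T hT
  rw [Nat.card_zpowers] at h
  have h1 : ((orb (Subgroup.zpowers (x j)) H * orderOf (x j) * Nat.card H : ℕ) : ℚ) =
    ((∑ y ∈ T, cj (Subgroup.zpowers (x j)) y : ℕ) : ℚ) := by rw [h]
  push_cast at h1
  rw [← h1]
  ring

theorem sum_wt {Q : Type} [Group Q] [Fintype Q] [DecidableEq Q] {k : ℕ} (x : Fin k → Q) (n : ℕ) :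
    ∑ y ∈ Finset.univ.filter (fun y => orderOf y = n), wt x y = Nat.card Q *
      ∑ j, (((if n ∣ orderOf (x j) then Nat.totient n else 0 : ℕ) : ℚ) / orderOf (x j)) := by
  unfold wt
  rw [Finset.sum_comm, Finset.mul_sum]
  apply Finset.sum_congr rfl
  intro j _
  have h := sum_cj (Subgroup.zpowers (x j)) (Finset.univ.filter (fun y : Q => orderOf y = n)) (by
    intro h u
    simp only [Finset.mem_filter, Finset.mem_univ, true_and]
    have h1 : orderOf (u * h * u⁻¹) = orderOf h := by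
      have := (MulAut.conj u).orderOf_eq h
      rwa [MulAut.conj_apply] at this
    rw [h1])
  have h1 : Nat.card {s : Q // s ∈ Finset.univ.filter (fun y : Q => orderOf y = n) ∧
      s ∈ Subgroup.zpowers (x j)} = if n ∣ orderOf (x j) then Nat.totient n else 0 := by
    rw [← card_ord]
    apply Nat.card_congr
    apply Equiv.subtypeEquivRight
    intro s
    simp
  rw [h1] at h
  rw [← Finset.sum_div, ← Nat.cast_sum, h, Nat.cast_mul, mul_div_assoc]

/-- the periods are determined by the finite quotients -/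
theorem periods_eq (hm : ∀ j, 2 ≤ m j) (hm' : ∀ j, 2 ≤ m' j)
    (Φ : NatBij (SigGroup g k m) (SigGroup g' k' m')) (h : Exact g k m) (h' : Exact g' k' m') :
    ∃ e : Fin k ≃ Fin k', ∀ j, m' (e j) = m j := by
  classical
  obtain ⟨Q, _, _, θ, hθ, hθ'⟩ := exists_exact Φ h h'
  have := Fintype.ofFinite Q
  apply exists_equiv
  apply mult_eq m m' hm hm'
  intro n hn
  set x : Fin k → Q := fun j => θ (xx j) with hx
  set x' : Fin k' → Q := fun j => Φ.toFun Q θ (xx j) with hx'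
  have h1 : ∑ y ∈ Finset.univ.filter (fun y : Q => orderOf y = n), (wt x y - wt x' y) = 0 := by
    apply sum_order (fun y => wt x y - wt x' y)
      (((2 * g + k : ℕ) : ℚ) * Nat.card Q - ((2 * g' + k' : ℕ) : ℚ) * Nat.card Q) _ n hn
    intro H T hT
    rw [Finset.sum_sub_distrib, ← sum_orb x H T hT, ← sum_orb x' H T hT]
    have h2 := orb_eq hm hm' Φ θ H
    have h3 : (Nat.card Q : ℚ) = Nat.card (Q ⧸ H) * Nat.card H := by
      exact_mod_cast Subgroup.card_eq_card_quotient_mul_card_subgroup H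
    have h4 : (((2 * g + k) * Nat.card (Q ⧸ H) + ∑ j, orb (Subgroup.zpowers (x' j)) H : ℕ) : ℚ) =
      (((2 * g' + k') * Nat.card (Q ⧸ H) + ∑ j, orb (Subgroup.zpowers (x j)) H : ℕ) : ℚ) := by
      rw [h2]
    rw [Nat.cast_add, Nat.cast_add, Nat.cast_mul, Nat.cast_mul] at h4
    rw [h3]
    linear_combination (-(Nat.card H : ℚ)) * h4
  rw [Finset.sum_sub_distrib, sum_wt, sum_wt, ← mul_sub, mul_eq_zero] at h1
  rcases h1 with h1 | h1
  · exfalso
    have h2 : Nat.card Q ≠ 0 := Nat.card_pos.ne'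
    exact h2 (by exact_mod_cast h1)
  · have h2 := sub_eq_zero.1 h1
    simp only [hx, hx', hθ, hθ'] at h2
    exact h2

end inv

end Pool.Agent.Sg
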