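import Pool.Agent.Lib.MP_305fdd_al.Su.Sig.Inv
import Pool.Agent.Lib.MP_305fdd_al.Su.Sig.Brd

/-!
# MP_305fdd_al, cocompact Fuchsian groups: signature groups with the same finite quotients
-/

set_option autoImplicit false

namespace Pool.Agent.Sg

open Pool.Agent.MP_305fdd_al Pool.Agent.Lib.MP_305fdd_al

section main

variable {g k g' k' : ℕ} {m : Fin k → ℕ} {m' : Fin k' → ℕ}

/-- **(INV)**: two groups of signatures with the same finite quotients, both with exact finite
quotients, are isomorphic. -/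
theorem inv (hm : ∀ j, 2 ≤ m j) (hm' : ∀ j, 2 ≤ m' j) (h : Exact g k m) (h' : Exact g' k' m')
    (Φ : NatBij (SigGroup g k m) (SigGroup g' k' m')) :
    g = g' ∧ (∃ e : Fin k ≃ Fin k', ∀ j, m' (e j) = m j) ∧
      Nonempty (SigGroup g k m ≃* SigGroup g' k' m') := by
  have h1 := genus_eq hm hm' Φ
  obtain ⟨e, he⟩ := periods_eq hm hm' Φ h h'
  refine ⟨h1, ⟨e, he⟩, ?_⟩
  subst h1
  exact iso_of_equiv e he

/-- residual finiteness and the exact orders of the `x_j` give exact finite quotients -/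
theorem exact_of_rf [hrf : Group.ResiduallyFinite (SigGroup g k m)] (hm : ∀ j, 2 ≤ m j)
    (ho : ∀ j, orderOf (xx j : SigGroup g k m) = m j) : Exact g k m := by
  classical
  -- the nontrivial powers
  have h1 : ∀ y : (Σ j : Fin k, {i : Fin (m j) // i.1 ≠ 0}),
      ∃ H : FiniteIndexNormalSubgroup (SigGroup g k m), (xx y.1 : SigGroup g k m) ^ y.2.1.1 ∉ H := by
    rintro ⟨j, i, hi⟩
    apply Group.exists_finiteIndexNormalSubgroup_notMem
    intro h
    have h2 := orderOf_dvd_of_pow_eq_one h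
    rw [ho j] at h2
    have h3 := Nat.le_of_dvd (Nat.pos_of_ne_zero hi) h2
    have h4 := i.2
    omega
  choose H hH using h1
  have hfin : ∀ y, Finite (SigGroup g k m ⧸ (H y).toSubgroup) := fun y => inferInstance
  refine ⟨(∀ y : (Σ j : Fin k, {i : Fin (m j) // i.1 ≠ 0}), SigGroup g k m ⧸ (H y).toSubgroup),
    inferInstance, Pi.finite, MonoidHom.pi fun y => QuotientGroup.mk' (H y).toSubgroup,
    fun j => ?_⟩
  set θ : SigGroup g k m →* (∀ y : (Σ j : Fin k, {i : Fin (m j) // i.1 ≠ 0}),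
    SigGroup g k m ⧸ (H y).toSubgroup) := MonoidHom.pi fun y => QuotientGroup.mk' (H y).toSubgroup
  rw [orderOf_eq_iff (by have := hm j; omega)]
  refine ⟨by rw [← map_pow, xx_pow, map_one], fun i hi1 hi2 h => ?_⟩
  rw [← map_pow] at h
  have h2 := congrFun h ⟨j, ⟨i, hi1⟩, by show i ≠ 0; omega⟩
  have h3 : ((xx j ^ i : SigGroup g k m) : SigGroup g k m ⧸
    (H ⟨j, ⟨i, hi1⟩, by show i ≠ 0; omega⟩).toSubgroup) = 1 := h2
  rw [QuotientGroup.eq_one_iff] at h3
  exact hH _ h3

/-- the abstract form -/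
theorem inv_iso {G H : Type} [Group G] [Group H] (e : G ≃* SigGroup g k m)
    (e' : H ≃* SigGroup g' k' m') (hG : Group.ResiduallyFinite G) (hH : Group.ResiduallyFinite H)
    (hm : ∀ j, 2 ≤ m j) (hm' : ∀ j, 2 ≤ m' j)
    (ho : ∀ j, orderOf (xx j : SigGroup g k m) = m j)
    (ho' : ∀ j, orderOf (xx j : SigGroup g' k' m') = m' j)
    (h : SameFiniteQuotients G H) : Nonempty (G ≃* H) := by
  have h1 : Group.ResiduallyFinite (SigGroup g k m) := by
    rw [Group.residuallyFinite_iff_exists_finiteIndex] at hG ⊢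
    intro x hx
    obtain ⟨K, hK, hxK⟩ := hG (e.symm x) (by
      intro h; apply hx; exact e.symm.injective (by rw [h, map_one]))
    refine ⟨K.map e.toMonoidHom, ?_, ?_⟩
    · constructor
      rw [show K.map e.toMonoidHom = K.map (e : G →* SigGroup g k m) from rfl, Subgroup.index_map_equiv K e]
      exact hK.index_ne_zero
    · rintro ⟨y, hy, rfl⟩
      apply hxK
      rwa [show e.symm (e.toMonoidHom y) = y from e.symm_apply_apply y]
  have h2 : Group.ResiduallyFinite (SigGroup g' k' m') := by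
    rw [Group.residuallyFinite_iff_exists_finiteIndex] at hH ⊢
    intro x hx
    obtain ⟨K, hK, hxK⟩ := hH (e'.symm x) (by
      intro h; apply hx; exact e'.symm.injective (by rw [h, map_one]))
    refine ⟨K.map e'.toMonoidHom, ?_, ?_⟩
    · constructor
      rw [show K.map e'.toMonoidHom = K.map (e' : H →* SigGroup g' k' m') from rfl, Subgroup.index_map_equiv K e']
      exact hK.index_ne_zero
    · rintro ⟨y, hy, rfl⟩
      apply hxK
      rwa [show e'.symm (e'.toMonoidHom y) = y from e'.symm_apply_apply y]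
  have h3 : SameFiniteQuotients (SigGroup g k m) (SigGroup g' k' m') := by
    intro Q _ _
    have h4 := h Q
    constructor
    · rintro ⟨f, hf⟩
      obtain ⟨f', hf'⟩ := h4.1 ⟨f.comp e.toMonoidHom, hf.comp e.surjective⟩
      exact ⟨f'.comp e'.symm.toMonoidHom, hf'.comp e'.symm.surjective⟩
    · rintro ⟨f, hf⟩
      obtain ⟨f', hf'⟩ := h4.2 ⟨f.comp e'.toMonoidHom, hf.comp e'.surjective⟩
      exact ⟨f'.comp e.symm.toMonoidHom, hf'.comp e.symm.surjective⟩
  obtain ⟨Φ⟩ := exists_natBij h3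
  obtain ⟨_, _, ⟨f⟩⟩ := inv hm hm' (exact_of_rf hm ho) (exact_of_rf hm' ho') Φ
  exact ⟨e.trans (f.trans e'.symm)⟩

end main

end Pool.Agent.Sg
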