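import Pool.Agent.Lib.MP_305fdd_al.Su.Sig.Cnt2
import Mathlib.GroupTheory.GroupAction.Quotient
import Mathlib.Data.ZMod.Basic

/-!
# MP_305fdd_al, cocompact Fuchsian groups: permutation modules
-/

set_option autoImplicit false
set_option linter.unusedSectionVars false

namespace Pool.Agent.Sg

open Pool.Agent.SuD

/-- the permutation module -/
def PM (p : ℕ) (X : Type) : Type := X → ZMod p

section pm

variable (p : ℕ) (X : Type)

instance : AddCommGroup (PM p X) := inferInstanceAs (AddCommGroup (X → ZMod p))

instance [NeZero p] [Finite X] : Finite (PM p X) := inferInstanceAs (Finite (X → ZMod p))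

theorem card_PM [NeZero p] [Finite X] : Nat.card (PM p X) = p ^ Nat.card X := by
  show Nat.card (X → ZMod p) = _
  rw [Nat.card_fun, Nat.card_zmod]

variable {p X} {Q : Type} [Group Q] [MulAction Q X]

instance : DistribMulAction Q (PM p X) where
  smul q f := fun x => f (q⁻¹ • x)
  one_smul f := by
    funext x
    show f ((1 : Q)⁻¹ • x) = f x
    rw [inv_one, one_smul]
  mul_smul q r f := by
    funext x
    show f ((q * r)⁻¹ • x) = f (r⁻¹ • q⁻¹ • x)
    rw [mul_inv_rev, mul_smul]
  smul_zero q := rfl
  smul_add q f g := rfl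

theorem PM_smul (q : Q) (f : PM p X) (x : X) : (q • f) x = f (q⁻¹ • x) := rfl

end pm

section orb

variable {p : ℕ} {X : Type} {Q : Type} [Group Q] [MulAction Q X] [Finite X] (S : Subgroup Q)

open Classical in
/-- the sums over the orbits -/
noncomputable def osum (p : ℕ) : PM p X →+ (MulAction.orbitRel.Quotient S X → ZMod p) where
  toFun f := fun O =>
    letI := Fintype.ofFinite X
    ∑ x ∈ Finset.univ.filter (fun x : X => (Quotient.mk'' x : MulAction.orbitRel.Quotient S X) = O), f x
  map_zero' := by
    funext O
    exact Finset.sum_eq_zero fun x _ => rfl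
  map_add' f g := by
    funext O
    exact Finset.sum_add_distrib

open Classical in
theorem osum_apply [Fintype X] (f : PM p X) (O : MulAction.orbitRel.Quotient S X) :
    osum S p f O = ∑ x ∈ Finset.univ.filter
      (fun x : X => (Quotient.mk'' x : MulAction.orbitRel.Quotient S X) = O), f x := by
  unfold osum
  simp only [AddMonoidHom.coe_mk, ZeroHom.coe_mk]
  refine Finset.sum_congr ?_ fun _ _ => rfl
  ext x
  rw [Finset.mem_filter, Finset.mem_filter]
  constructor
  · exact fun h => ⟨Finset.mem_univ x, h.2⟩
  · exact fun h => ⟨@Finset.mem_univ X (Fintype.ofFinite X) x, h.2⟩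

theorem mk_smul (s : Q) (hs : s ∈ S) (x : X) :
    (Quotient.mk'' (s • x) : MulAction.orbitRel.Quotient S X) = Quotient.mk'' x := by
  apply Quotient.sound'
  exact ⟨⟨s, hs⟩, rfl⟩

theorem osum_smul (s : Q) (hs : s ∈ S) (f : PM p X) : osum S p (s • f) = osum S p f := by
  classical
  have := Fintype.ofFinite X
  funext O
  rw [osum_apply, osum_apply]
  refine Finset.sum_bij' (fun x _ => s⁻¹ • x) (fun x _ => s • x) ?_ ?_ ?_ ?_ ?_
  · intro x hx
    rw [Finset.mem_filter] at hx ⊢
    exact ⟨Finset.mem_univ _, by rw [mk_smul S _ (S.inv_mem hs)]; exact hx.2⟩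
  · intro x hx
    rw [Finset.mem_filter] at hx ⊢
    exact ⟨Finset.mem_univ _, by rw [mk_smul S _ hs]; exact hx.2⟩
  · intro x _; exact smul_inv_smul s x
  · intro x _; exact inv_smul_smul s x
  · intro x _; rfl

open Classical in
/-- the delta function -/
noncomputable def dl (p : ℕ) (x : X) (c : ZMod p) : PM p X := fun y => if y = x then c else 0

theorem smul_dl (s : Q) (x : X) (c : ZMod p) : s • dl p x c = dl p (s • x) c := by
  classical
  funext y
  rw [PM_smul]
  unfold dl
  by_cases h : y = s • x
  · rw [if_pos h, if_pos (by rw [h, inv_smul_smul])]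
  · rw [if_neg h, if_neg (by rintro h2; exact h (by rw [← h2, smul_inv_smul]))]

theorem osum_surj : Function.Surjective (osum (X := X) S p) := by
  classical
  have := Fintype.ofFinite X
  intro F
  -- choose representatives
  obtain ⟨f, hf⟩ : ∃ f : PM p X, ∀ x, f x = if x = (Quotient.mk'' x :
    MulAction.orbitRel.Quotient S X).out then F (Quotient.mk'' x) else 0 := ⟨_, fun _ => rfl⟩
  refine ⟨f, ?_⟩
  funext O
  rw [osum_apply]
  simp only [hf]
  rw [Finset.sum_eq_single O.out]
  · have h : (Quotient.mk'' O.out : MulAction.orbitRel.Quotient S X) = O := Quotient.out_eq' O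
    rw [h, if_pos rfl]
  · intro x hx hne
    rw [Finset.mem_filter] at hx
    rw [hx.2, if_neg hne]
  · intro h
    exfalso
    apply h
    rw [Finset.mem_filter]
    exact ⟨Finset.mem_univ _, Quotient.out_eq' O⟩

/-- the representative of the orbit -/
noncomputable def rp (x : X) : X := (Quotient.mk'' x : MulAction.orbitRel.Quotient S X).out

theorem mk_rp (x : X) : (Quotient.mk'' (rp S x) : MulAction.orbitRel.Quotient S X) = Quotient.mk'' x :=
  Quotient.out_eq' _

theorem exists_rp (x : X) : ∃ s ∈ S, s • x = rp S x := by
  have h := Quotient.exact' (mk_rp S x)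
  obtain ⟨s, hs⟩ := h
  exact ⟨s.1, s.2, hs⟩

theorem osum_ker : (osum (X := X) S p).ker = IP (PM p X) S := by
  classical
  have := Fintype.ofFinite X
  apply le_antisymm
  · intro f hf
    have hf' : osum S p f = 0 := hf
    have h1 : f = ∑ x : X, dl p x (f x) := by
      funext y
      rw [show (∑ x : X, dl p x (f x)) y = ∑ x : X, dl p x (f x) y from Finset.sum_apply _ _ _]
      unfold dl
      rw [Finset.sum_ite_eq Finset.univ y f, if_pos (Finset.mem_univ _)]
    have h2 : ∑ x : X, dl p (rp S x) (f x) = 0 := by
      funext y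
      rw [show (∑ x : X, dl p (rp S x) (f x)) y = ∑ x : X, dl p (rp S x) (f x) y from
        Finset.sum_apply _ _ _]
      show _ = (0 : ZMod p)
      have h3 : ∑ x : X, dl p (rp S x) (f x) y =
          ∑ x ∈ Finset.univ.filter (fun x => y = rp S x), f x :=
        (Finset.sum_filter (fun x => y = rp S x) f).symm
      rw [h3]
      by_cases hy : y = rp S y
      · have h4 := congrFun hf' (Quotient.mk'' y)
        rw [osum_apply] at h4
        have h5 : (Finset.univ.filter fun x => y = rp S x) = Finset.univ.filter
            (fun x : X => (Quotient.mk'' x : MulAction.orbitRel.Quotient S X) = Quotient.mk'' y) := by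
          ext x
          rw [Finset.mem_filter, Finset.mem_filter]
          refine and_congr_right fun _ => ⟨fun h => ?_, fun h => ?_⟩
          · rw [h, mk_rp]
          · rw [hy]
            unfold rp
            rw [h]
        rw [h5]
        exact h4
      · apply Finset.sum_eq_zero
        intro x hx
        exfalso
        rw [Finset.mem_filter] at hx
        apply hy
        have h4 : (Quotient.mk'' y : MulAction.orbitRel.Quotient S X) = Quotient.mk'' x := by
          rw [hx.2, mk_rp]
        rw [show rp S y = rp S x by unfold rp; rw [h4]]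
        exact hx.2
    have h3 : ∑ x : X, (dl p x (f x) - dl p (rp S x) (f x)) ∈ IP (PM p X) S := by
      apply AddSubgroup.sum_mem
      intro x _
      obtain ⟨s, hs, hx⟩ := exists_rp S x
      rw [← hx, ← smul_dl]
      exact sub_mem_IP hs _
    rw [Finset.sum_sub_distrib, h2, sub_zero, ← h1] at h3
    exact h3
  · unfold IP
    rw [AddSubgroup.closure_le]
    rintro _ ⟨q, hq, f, rfl⟩
    show osum S p (f - q • f) = 0
    rw [map_sub, osum_smul S q hq, sub_self]

/-- the order of the augmentation of a permutation module -/
theorem card_IP_PM [NeZero p] : Nat.card (IP (PM p X) S) *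
    p ^ Nat.card (MulAction.orbitRel.Quotient S X) = p ^ Nat.card X := by
  have h := card_hom_eq (osum (X := X) S p)
  rw [osum_ker, AddMonoidHom.range_eq_top.2 (osum_surj S), card_PM] at h
  rw [← h]
  congr 1
  rw [show Nat.card (⊤ : AddSubgroup (MulAction.orbitRel.Quotient S X → ZMod p)) =
    Nat.card (MulAction.orbitRel.Quotient S X → ZMod p) from
      Nat.card_congr AddSubgroup.topEquiv.toEquiv, Nat.card_fun, Nat.card_zmod]

end orb

end Pool.Agent.Sg
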